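import Pool.Agent.Y74.OC.Ord
import Pool.Agent.W649.ZL.Lead

set_option autoImplicit false
set_option linter.unusedSectionVars false

open scoped InnerProductSpace InnerProduct ENNReal

/-! Lowest parts for actions on totally ordered sets. -/

namespace Pool.Agent.Y74.OC

open Pool.Agent.W649.ZL

universe u v w

section
variable {G : Type u} [Group G] {H : Subgroup G} {P : Set G}

theorem res_cop [DecidablePred (fun g => g ∈ H)] (hP : Cone H P) (α : G →₀ ℂ) (hα : ∀ g ∈ α.support, g ∈ (H : Set G) ∪ P)
    (u h : EE G Unit) (hu : u ∈ sup Unit (H : Set G)) (hh : h ∈ sup Unit P) :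
    res (H : Set G) (cop α (u + h)) = cop (α.filter (fun g => g ∈ H)) u := by
  ext ⟨x, ⟨⟩⟩
  rw [cop_apply, Finsupp.support_filter, Finset.sum_filter]
  by_cases hx : x ∈ H
  · rw [res_mem _ _ _ hx, cop_apply]
    refine Finset.sum_congr rfl fun t ht => ?_
    change α t * (u (t⁻¹ * x, ()) + h (t⁻¹ * x, ())) = _
    rcases hα t ht with h1 | h1
    · have h2 : t⁻¹ * x ∈ H := H.mul_mem (H.inv_mem h1) hx
      have h3 : h (t⁻¹ * x, ()) = 0 := hh _ (fun h4 => hP.notH _ h4 h2)
      rw [if_pos (show t ∈ H from h1), Finsupp.filter_apply_pos _ _ (show t ∈ H from h1), h3,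
        add_zero]
    · have h2 : t ∉ H := hP.notH _ h1
      have h3 : t⁻¹ * x ∉ H := by
        intro h4
        apply h2
        have h5 : t = x * (t⁻¹ * x)⁻¹ := by group
        rw [h5]
        exact H.mul_mem hx (H.inv_mem h4)
      have h4 : t⁻¹ * x ∉ P := by
        intro h5
        have h6 := hP.mul _ h1 _ h5
        rw [mul_inv_cancel_left] at h6
        exact hP.notH _ h6 hx
      rw [if_neg h2, hu (t⁻¹ * x, ()) h3, hh (t⁻¹ * x, ()) h4, add_zero, mul_zero]
  · rw [res_notMem _ _ _ hx]
    symm
    refine Finset.sum_eq_zero fun t _ => ?_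
    by_cases h2 : t ∈ H
    · have h3 : t⁻¹ * x ∉ H := by
        intro h4
        apply hx
        have h5 : x = t * (t⁻¹ * x) := by group
        rw [h5]
        exact H.mul_mem h2 h4
      rw [if_pos h2, hu (t⁻¹ * x, ()) h3, mul_zero]
    · rw [if_neg h2]

theorem norm_res_le (X : Set G) (f : EE G Unit) : ‖res X f‖ ≤ ‖f‖ := norm_resFun_le X f

/-- the dimension inequality, for supports in the non-negative part -/
theorem vd_le_of_cone [DecidablePred (fun g => g ∈ H)] (hP : Cone H P) (α : G →₀ ℂ) (hα : ∀ g ∈ α.support, g ∈ (H : Set G) ∪ P) :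
    vd (LinearMap.ker (cop α : EE G Unit →ₗ[ℂ] EE G Unit))
      ≤ vd (LinearMap.ker (cop (α.filter (fun g => g ∈ H)) : EE G Unit →ₗ[ℂ] EE G Unit)) := by
  refine core hP _ _ (inv_ker _ (cop_eqv α)) (ContinuousLinearMap.isClosed_ker _)
    (ContinuousLinearMap.isClosed_ker _) ?_
  intro u hu hlim
  change cop (α.filter (fun g => g ∈ H)) u = 0
  rw [← norm_le_zero_iff]
  apply le_of_forall_pos_le_add
  intro δ hδ
  set C := ‖cop α‖ with hC
  have hC0 : 0 ≤ C := norm_nonneg _
  obtain ⟨h, hh, k, hk, hn⟩ := hlim (δ / (C + 1)) (by positivity)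
  have hk' : cop α k = 0 := hk
  rw [← res_cop hP α hα u h hu hh]
  calc ‖res (H : Set G) (cop α (u + h))‖ ≤ ‖cop α (u + h)‖ := norm_res_le _ _
    _ = ‖cop α (u + h - k)‖ := by rw [map_sub, hk', sub_zero]
    _ ≤ C * ‖u + h - k‖ := (cop α).le_opNorm _
    _ ≤ C * (δ / (C + 1)) := by gcongr
    _ ≤ 0 + δ := by
      rw [zero_add, mul_div_assoc', div_le_iff₀ (by positivity)]
      nlinarith

/-- the cone of an action on a totally ordered set -/
theorem cone_of_action {Ω : Type v} [LinearOrder Ω] [MulAction G Ω]
    (hmono : ∀ (g : G) (x y : Ω), x ≤ y → g • x ≤ g • y) (ω : Ω) :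
    Cone (MulAction.stabilizer G ω) {g : G | ω < g • ω} := by
  have hlt : ∀ (g : G) (x y : Ω), x < y → g • x < g • y := by
    intro g x y hxy
    refine lt_of_le_of_ne (hmono g x y hxy.le) ?_
    intro h
    exact hxy.ne (MulAction.injective g h)
  refine ⟨?_, ?_, ?_⟩
  · intro a ha b hb
    change ω < (a * b) • ω
    rw [mul_smul]
    exact lt_trans ha (hlt a _ _ hb)
  · intro g
    rcases lt_trichotomy ω (g • ω) with h | h | h
    · exact Or.inl h
    · exact Or.inr (Or.inl (MulAction.mem_stabilizer_iff.2 h.symm))
    · right; right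
      change ω < g⁻¹ • ω
      have := hlt g⁻¹ _ _ h
      rwa [inv_smul_smul] at this
  · intro g hg h
    rw [MulAction.mem_stabilizer_iff] at h
    exact (ne_of_gt hg) h

/-- The main inequality for actions on totally ordered sets. -/
theorem vd_le_of_action {Ω : Type v} [LinearOrder Ω] [MulAction G Ω]
    (hmono : ∀ (g : G) (x y : Ω), x ≤ y → g • x ≤ g • y) (ω : Ω) (g₀ : G) (α : G →₀ ℂ)
    (hα : ∀ g ∈ α.support, g₀ • ω ≤ g • ω) :
    vd (LinearMap.ker (cop α : EE G Unit →ₗ[ℂ] EE G Unit))
      ≤ vd (LinearMap.ker (cop (α.filter (fun g => g • ω = g₀ • ω)) :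
        EE G Unit →ₗ[ℂ] EE G Unit)) := by
  have hker : ∀ β : G →₀ ℂ, LinearMap.ker (cop (β.mapDomain (fun x => g₀⁻¹ * x)) :
      EE G Unit →ₗ[ℂ] EE G Unit) = LinearMap.ker (cop β : EE G Unit →ₗ[ℂ] EE G Unit) := by
    intro β
    ext f
    change cop (β.mapDomain (fun x => g₀⁻¹ * x)) f = 0 ↔ cop β f = 0
    rw [cop_mapDomain]
    change Ltr g₀⁻¹ (cop β f) = 0 ↔ _
    constructor
    · intro h
      apply Ltr_injective g₀⁻¹
      rw [h, map_zero]
    · intro h
      rw [h, map_zero]
  have hinj : Function.Injective (fun x : G => g₀⁻¹ * x) := mul_right_injective g₀⁻¹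
  have hsupp : ∀ g ∈ (α.mapDomain (fun x => g₀⁻¹ * x)).support,
      g ∈ ((MulAction.stabilizer G ω : Subgroup G) : Set G) ∪ {g : G | ω < g • ω} := by
    classical
    intro g hg
    rw [Finsupp.mapDomain_support_of_injective hinj, Finset.mem_image] at hg
    obtain ⟨t, ht, rfl⟩ := hg
    have h1 := hmono g₀⁻¹ _ _ (hα t ht)
    rw [inv_smul_smul, ← mul_smul] at h1
    rcases h1.eq_or_lt with h2 | h2
    · exact Or.inl (MulAction.mem_stabilizer_iff.2 h2.symm)
    · exact Or.inr h2
  have h1 := vd_le_of_cone (cone_of_action hmono ω) _ hsupp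
  rw [hker] at h1
  have hf : (α.mapDomain (fun x => g₀⁻¹ * x)).filter
      (fun g => g ∈ MulAction.stabilizer G ω)
      = (α.filter (fun g => g • ω = g₀ • ω)).mapDomain (fun x => g₀⁻¹ * x) := by
    ext x
    have hx : x = (fun x => g₀⁻¹ * x) (g₀ * x) := by
      change x = g₀⁻¹ * (g₀ * x)
      group
    have hiff : x ∈ MulAction.stabilizer G ω ↔ (g₀ * x) • ω = g₀ • ω := by
      rw [MulAction.mem_stabilizer_iff, mul_smul, smul_left_cancel_iff]
    rw [Finsupp.filter_apply]
    conv_rhs => rw [hx, Finsupp.mapDomain_apply hinj, Finsupp.filter_apply]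
    by_cases h : x ∈ MulAction.stabilizer G ω
    · rw [if_pos h, if_pos (hiff.1 h)]
      conv_lhs => rw [hx, Finsupp.mapDomain_apply hinj]
    · rw [if_neg h, if_neg (fun h' => h (hiff.2 h'))]
  rw [hf, hker] at h1
  exact h1

/-- all nonzero elements of `ℂG` act injectively -/
def Reg (G : Type u) [Group G] : Prop := ∀ α : G →₀ ℂ, α ≠ 0 → Function.Injective (cop α)

theorem subgroup_of_injective {G : Type u} [Group G] (K : Subgroup G) (β : K →₀ ℂ)
    (h : Function.Injective (cop (β.mapDomain (Subtype.val : K → G)))) :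
    Function.Injective (cop β) := by
  classical
  rw [injective_iff_map_eq_zero]
  intro F hF
  have hmem : Memℓp (fun x : G × Unit => if hx : x.1 ∈ K then F (⟨x.1, hx⟩, ()) else 0) 2 := by
    rw [memlp_two_iff]
    have h1 := (memlp_two_iff _).1 F.2
    have h2 : Function.Injective (fun x : K × Unit => ((x.1 : G), x.2)) := by
      rintro ⟨a, ⟨⟩⟩ ⟨b, ⟨⟩⟩ hab
      simp only [Prod.mk.injEq, and_true, SetLike.coe_eq_coe] at hab
      rw [hab]
    rw [← h2.summable_iff]
    · convert h1 using 2 with x
      obtain ⟨⟨x, hx⟩, ⟨⟩⟩ := x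
      simp [hx]
    · rintro ⟨x, ⟨⟩⟩ hx
      by_cases hxK : x ∈ K
      · exact absurd ⟨(⟨x, hxK⟩, ()), rfl⟩ hx
      · simp [hxK]
  let F' : EE G Unit := ⟨_, hmem⟩
  have hF'1 : ∀ (x : G) (hx : x ∈ K), F' (x, ()) = F (⟨x, hx⟩, ()) := fun x hx => dif_pos hx
  have hF'0 : ∀ (x : G) (hx : x ∉ K), F' (x, ()) = 0 := fun x hx => dif_neg hx
  have h0 : cop (β.mapDomain (Subtype.val : K → G)) F' = 0 := by
    ext ⟨x, ⟨⟩⟩
    rw [cop_apply, Finsupp.mapDomain_support_of_injective Subtype.val_injective,
      Finset.sum_image (fun a _ b _ hab => Subtype.val_injective hab)]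
    change _ = (0 : ℂ)
    by_cases hx : x ∈ K
    · have h2 := cop_apply β F ⟨x, hx⟩
      rw [hF] at h2
      refine Eq.trans (Finset.sum_congr rfl fun t _ => ?_) h2.symm
      rw [Finsupp.mapDomain_apply Subtype.val_injective]
      congr 1
      exact hF'1 _ (K.mul_mem (K.inv_mem t.2) hx)
    · refine Finset.sum_eq_zero fun t _ => ?_
      rw [hF'0, mul_zero]
      intro h3
      apply hx
      have h5 : x = (t : G) * ((t : G)⁻¹ * x) := by group
      rw [h5]
      exact K.mul_mem t.2 h3
  have h1 : F' = 0 := h (by rw [h0, map_zero])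
  ext ⟨x, ⟨⟩⟩
  have h2 := congrArg (fun H : EE G Unit => H ((x : G), ())) h1
  have h3 : F' ((x : G), ()) = 0 := h2
  rw [hF'1 _ x.2] at h3
  exact h3

theorem Reg.subgroup {G : Type u} [Group G] (h : Reg G) (K : Subgroup G) : Reg K := by
  intro β hβ
  apply subgroup_of_injective K β
  apply h
  intro h0
  apply hβ
  exact Finsupp.mapDomain_injective Subtype.val_injective (by rw [h0, Finsupp.mapDomain_zero])

/-- `G` acts nontrivially by order automorphisms on a totally ordered set -/
def Acts (G : Type u) [Group G] : Prop :=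
  ∃ (Ω : Type u) (_ : LinearOrder Ω) (_ : MulAction G Ω),
    (∀ (g : G) (x y : Ω), x ≤ y → g • x ≤ g • y) ∧ ∃ (g : G) (ω : Ω), g • ω ≠ ω

/-- every nontrivial finitely generated subgroup satisfies `Reg` or acts nontrivially by order
automorphisms on a totally ordered set -/
def LocActs (G : Type u) [Group G] : Prop :=
  ∀ K : Subgroup G, K.FG → K ≠ ⊥ → Reg K ∨ Acts K

/-- If every nontrivial finitely generated subgroup acts nontrivially on a totally ordered set or
satisfies `Reg`, all nonzero elements act injectively. -/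
theorem LocActs.injective {G : Type u} [Group G] (hG : LocActs G) : ∀ (n : ℕ) (α : G →₀ ℂ),
    α.support.card = n → α ≠ 0 → Function.Injective (cop α) := by
  intro n
  induction n using Nat.strong_induction_on with
  | _ n ih =>
    intro α hcard hα
    classical
    obtain ⟨t0, ht0⟩ := Finsupp.support_nonempty_iff.2 hα
    by_cases hone : α.support.card = 1
    · -- a single term
      obtain ⟨t, ht⟩ := Finset.card_eq_one.1 hone
      have h1 : α = Finsupp.single t (α t) := by
        ext x
        by_cases hx : x = t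
        · subst hx; simp
        · rw [Finsupp.single_apply, if_neg (Ne.symm hx)]
          by_contra hne
          have : x ∈ α.support := Finsupp.mem_support_iff.2 hne
          rw [ht, Finset.mem_singleton] at this
          exact hx this
      have h2 : α t ≠ 0 := by
        have : t ∈ α.support := by rw [ht]; exact Finset.mem_singleton_self t
        exact Finsupp.mem_support_iff.1 this
      rw [h1, cop_single]
      intro f g hfg
      apply Ltr_injective t
      exact smul_right_injective _ h2 hfg
    · -- translate so that `1` is in the support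
      let α' : G →₀ ℂ := α.mapDomain (fun x => t0⁻¹ * x)
      have hinjm : Function.Injective (fun x : G => t0⁻¹ * x) := mul_right_injective t0⁻¹
      have hsupp' : α'.support = α.support.image (fun x => t0⁻¹ * x) :=
        Finsupp.mapDomain_support_of_injective hinjm α
      have h1mem : (1 : G) ∈ α'.support := by
        rw [hsupp', Finset.mem_image]
        exact ⟨t0, ht0, inv_mul_cancel t0⟩
      have hcard' : α'.support.card = n := by
        rw [hsupp', Finset.card_image_of_injective _ hinjm, hcard]
      suffices h : Function.Injective (cop α') by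
        have h2 := cop_mapDomain t0⁻¹ α
        rw [h2] at h
        exact Function.Injective.of_comp (f := Ltr t0⁻¹) h
      let K : Subgroup G := Subgroup.closure (α'.support : Set G)
      have hKsupp : ∀ x ∈ α'.support, x ∈ K := fun x hx => Subgroup.subset_closure hx
      have hKfg : K.FG := ⟨α'.support, rfl⟩
      have hKne : K ≠ ⊥ := by
        intro hbot
        have h2 : α'.support ⊆ {1} := by
          intro x hx
          have := hKsupp x hx
          rw [hbot, Subgroup.mem_bot] at this
          rw [this]; exact Finset.mem_singleton_self 1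
        have h3 := Finset.card_le_card h2
        rw [Finset.card_singleton] at h3
        have h4 : 0 < α'.support.card := Finset.card_pos.2 ⟨1, h1mem⟩
        rw [hcard] at hone
        omega
      apply injective_of_subgroup K α' hKsupp
      set β : K →₀ ℂ := α'.comapDomain (Subtype.val : K → G) Subtype.val_injective.injOn with hβ
      have hβsupp : ∀ k : K, k ∈ β.support ↔ (k : G) ∈ α'.support := by
        intro k
        rw [hβ, Finsupp.comapDomain_support, Finset.mem_preimage]
      have h1β : (1 : K) ∈ β.support := (hβsupp 1).2 h1mem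
      have hβcard : β.support.card = n := by
        rw [← hcard', hβ, Finsupp.comapDomain_support]
        rw [Finset.card_preimage]
        congr 1
        ext x
        simp only [Finset.mem_filter, and_iff_left_iff_imp]
        intro hx
        exact ⟨⟨x, hKsupp x hx⟩, rfl⟩
      rcases hG K hKfg hKne with hreg | hacts
      · apply hreg
        intro h0
        rw [h0] at h1β
        simp at h1β
      obtain ⟨Ω, iL, iA, hmono, k0, ω, hk0⟩ := hacts
      obtain ⟨t1, ht1, hmin⟩ := Finset.exists_min_image β.support (fun k => k • ω) ⟨1, h1β⟩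
      have hlead := vd_le_of_action hmono ω t1 β hmin
      set γ := β.filter (fun t => t • ω = t1 • ω) with hγ
      have hγne : γ ≠ 0 := by
        intro h0
        have h2 : γ t1 = β t1 := Finsupp.filter_apply_pos _ _ rfl
        rw [h0] at h2
        exact (Finsupp.mem_support_iff.1 ht1) h2.symm
      have hγcard : γ.support.card < n := by
        rw [← hβcard]
        apply Finset.card_lt_card
        rw [hγ, Finsupp.support_filter, Finset.ssubset_iff_subset_ne]
        refine ⟨Finset.filter_subset _ _, fun heq => ?_⟩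
        have hall : ∀ k ∈ β.support, k • ω = t1 • ω := by
          intro k hk
          rw [← heq, Finset.mem_filter] at hk
          exact hk.2
        have hm0 : t1 • ω = ω := by rw [← hall 1 h1β, one_smul]
        have hker : K ≤ (MulAction.stabilizer K ω).map K.subtype := by
          rw [Subgroup.closure_le]
          intro x hx
          refine ⟨⟨x, hKsupp x hx⟩, ?_, rfl⟩
          have h2 := hall ⟨x, hKsupp x hx⟩ ((hβsupp _).2 hx)
          rw [hm0] at h2
          exact MulAction.mem_stabilizer_iff.2 h2
        obtain ⟨k1, hk1, hk2⟩ := hker k0.2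
        apply hk0
        have : k1 = k0 := Subtype.ext hk2
        rw [← this]
        exact MulAction.mem_stabilizer_iff.1 hk1
      have hinjγ : Function.Injective (cop γ) := by
        apply subgroup_of_injective K γ
        refine ih _ hγcard _ ?_ ?_
        · rw [Finsupp.mapDomain_support_of_injective Subtype.val_injective,
            Finset.card_image_of_injective _ Subtype.val_injective]
        · intro h0
          apply hγne
          exact Finsupp.mapDomain_injective Subtype.val_injective
            (by rw [h0, Finsupp.mapDomain_zero])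
      have hz := vd_ker_of_injective _ hinjγ
      rw [hz] at hlead
      exact injective_of_vd_eq_zero _ (cop_eqv β) hlead

theorem LocActs.reg {G : Type u} [Group G] (hG : LocActs G) : Reg G :=
  fun α hα => hG.injective _ α rfl hα

end

end Pool.Agent.Y74.OC
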