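import Pool.Agent.W649.ZL.Supp

set_option autoImplicit false
set_option linter.unusedSectionVars false

open scoped InnerProductSpace InnerProduct ENNReal

/-! Traces of operators which commute with the right translations by a subgroup. -/

namespace Pool.Agent.Y74.OC

open Pool.Agent.W649.ZL

universe u v w

section
variable {G : Type u} {I : Type v} [Group G]

/-- the left cosets of `H`, with chosen representatives -/
noncomputable def eqv (H : Subgroup G) : ((G ⧸ H) × H) ≃ G where
  toFun x := x.1.out * x.2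
  invFun g := ((g : G ⧸ H), ⟨((g : G ⧸ H)).out⁻¹ * g, by
    rw [← QuotientGroup.eq]; exact QuotientGroup.out_eq' _⟩)
  left_inv x := by
    obtain ⟨c, h⟩ := x
    have h1 : ((c.out * (h : G) : G) : G ⧸ H) = c := by
      rw [QuotientGroup.mk_mul_of_mem _ h.2]; exact QuotientGroup.out_eq' _
    refine Prod.ext h1 (Subtype.ext ?_)
    change (((c.out * (h : G) : G) : G ⧸ H)).out⁻¹ * (c.out * h) = h
    rw [h1]; group
  right_inv g := by
    change ((g : G ⧸ H)).out * (((g : G ⧸ H)).out⁻¹ * g) = g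
    group

theorem eqv_apply (H : Subgroup G) (c : G ⧸ H) (h : H) : eqv H (c, h) = c.out * h := rfl

theorem adj_apply [Fintype I] (Z : EE G I →L[ℂ] EE G I) (t g : G) (i j : I) :
    ContinuousLinearMap.adjoint Z (dl (t, j)) (g, i) = (starRingEnd ℂ) (Z (dl (g, i)) (t, j)) := by
  rw [← inner_dl_left (g, i), ContinuousLinearMap.adjoint_inner_right, inner_dl_right]

theorem dl_eq_tr (h : G) (i : I) : (dl (h, i) : EE G I) = tr h⁻¹ (dl ((1 : G), i)) := by
  rw [tr_dl, one_mul, inv_inv]

/-- The trace identity. -/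
theorem HSH [Fintype I] (H : Subgroup G) (X Y : EE G I →L[ℂ] EE G I)
    (hX : ∀ h ∈ H, ∀ f, X (tr h f) = tr h (X f)) (hY : ∀ h ∈ H, ∀ f, Y (tr h f) = tr h (Y f))
    (hX0 : ∀ g ∉ H, ∀ i, X (dl (g, i)) = 0) :
    HasSum (fun c : G ⧸ H => ∑ j : I, ⟪ContinuousLinearMap.adjoint Y (dl (c.out, j)),
        ContinuousLinearMap.adjoint X (dl (c.out, j))⟫_ℂ)
      (∑ i : I, ⟪X (dl ((1 : G), i)), Y (dl ((1 : G), i))⟫_ℂ) := by
  classical
  let F : I → I → G → ℂ := fun i j g => ⟪X (dl ((1 : G), i)) (g, j), Y (dl ((1 : G), i)) (g, j)⟫_ℂ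
  have hsum : ∀ i, Summable (fun x : G × I =>
      ⟪X (dl ((1 : G), i)) x, Y (dl ((1 : G), i)) x⟫_ℂ) := fun i => lp.summable_inner _ _
  have hF : ∀ i j, Summable (F i j) := by
    intro i j
    exact (hsum i).comp_injective (i := fun g : G => ((g, j) : G × I)) (by
      intro a b hab
      exact congrArg Prod.fst hab)
  have e1 : ∀ i, ⟪X (dl ((1 : G), i)), Y (dl ((1 : G), i))⟫_ℂ = ∑ j, ∑' g, F i j g := by
    intro i
    rw [lp.inner_eq_tsum]
    exact tsum_prod_fin _ (hsum i)
  have h1 : ∀ i j, HasSum (fun c : G ⧸ H => ∑' h : H, F i j (c.out * h)) (∑' g, F i j g) := by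
    intro i j
    have h2 : HasSum (fun x : (G ⧸ H) × H => F i j (eqv H x)) (∑' g, F i j g) :=
      (Equiv.hasSum_iff (eqv H)).2 (hF i j).hasSum
    refine h2.prod_fiberwise fun c => ?_
    have h3 : Summable (fun h : H => F i j (eqv H (c, h))) :=
      h2.summable.comp_injective (i := fun h : H => ((c, h) : (G ⧸ H) × H)) (by
        intro a b hab
        exact congrArg Prod.snd hab)
    exact h3.hasSum
  have h2 : HasSum (fun c : G ⧸ H => ∑ i, ∑ j, ∑' h : H, F i j (c.out * h))
      (∑ i, ∑ j, ∑' g, F i j g) :=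
    hasSum_sum fun i _ => hasSum_sum fun j _ => h1 i j
  rw [Finset.sum_congr rfl fun i _ => e1 i]
  have h3 : (fun c : G ⧸ H => ∑ j : I, ⟪ContinuousLinearMap.adjoint Y (dl (c.out, j)),
        ContinuousLinearMap.adjoint X (dl (c.out, j))⟫_ℂ)
      = fun c : G ⧸ H => ∑ i, ∑ j, ∑' h : H, F i j (c.out * h) := by
    funext c
    rw [Finset.sum_comm]
    refine Finset.sum_congr rfl fun j _ => ?_
    set t := c.out with ht
    rw [lp.inner_eq_tsum, tsum_prod_fin _ (lp.summable_inner _ _)]
    refine Finset.sum_congr rfl fun i _ => ?_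
    have hz : ∀ g ∉ H, ⟪ContinuousLinearMap.adjoint Y (dl (t, j)) (g, i),
        ContinuousLinearMap.adjoint X (dl (t, j)) (g, i)⟫_ℂ = 0 := by
      intro g hg
      rw [adj_apply X, hX0 g hg]
      have : (0 : EE G I) (t, j) = 0 := rfl
      rw [this, map_zero, inner_zero_right]
    have h4 : Function.support (fun g : G => ⟪ContinuousLinearMap.adjoint Y (dl (t, j)) (g, i),
        ContinuousLinearMap.adjoint X (dl (t, j)) (g, i)⟫_ℂ) ⊆ (H : Set G) := by
      intro g hg
      by_contra hcon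
      exact hg (hz g hcon)
    rw [← tsum_subtype_eq_of_support_subset h4]
    rw [← Equiv.tsum_eq (Equiv.inv H) (fun h : H => F i j (t * h))]
    refine tsum_congr fun h => ?_
    change ⟪ContinuousLinearMap.adjoint Y (dl (t, j)) ((h : G), i),
        ContinuousLinearMap.adjoint X (dl (t, j)) ((h : G), i)⟫_ℂ = F i j (t * ((h⁻¹ : H) : G))
    rw [adj_apply, adj_apply, dl_eq_tr, hX _ (H.inv_mem h.2), hY _ (H.inv_mem h.2),
      tr_apply, tr_apply]
    simp only [F, Subgroup.coe_inv]
    simp only [RCLike.inner_apply, map_mul, RingHomCompTriple.comp_apply, RingHom.id_apply]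
    ring
  rw [h3]
  exact h2

end

end Pool.Agent.Y74.OC
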