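import Pool.Agent.Y74.OC.Res

set_option autoImplicit false
set_option linter.unusedSectionVars false

open scoped InnerProductSpace InnerProduct ENNReal

/-! The dimension inequality for invariant orders on coset spaces. -/

namespace Pool.Agent.Y74.OC

open Pool.Agent.W649.ZL
open Pool.Agent.H919R3.L2 (IsReg exists_reg reg_tendsto)

universe u v w

section
variable {G : Type u} {I : Type v} [Group G] [Fintype I]

theorem orth_tr {k : G} {D : Submodule ℂ (EE G I)} (x y : EE G I) (t s : G) :
    ⟪tr t x, tr s y⟫_ℂ = ⟪tr (s⁻¹ * t) x, y⟫_ℂ := by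
  rw [← inner_tr s⁻¹ (tr t x) (tr s y), tr_tr, tr_tr, inv_mul_cancel, tr_one]

theorem star_zero {E : Type*} [NormedAddCommGroup E] [InnerProductSpace ℂ E] [CompleteSpace E]
    (M : Submodule ℂ E) [CompleteSpace M] (x : E) (h : Mᗮ.starProjection x = 0) : x ∈ M := by
  have h1 := (Submodule.starProjection_apply_eq_zero_iff Mᗮ).1 h
  rw [Submodule.orthogonal_orthogonal] at h1
  exact h1

/-- The main inequality: let `K` and `Z` be closed subspaces, `K` right invariant. If all functions
supported on `H` which can be moved arbitrarily close to `K` by adding functions supported on the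
positive set `P` are in `Z`, then the dimension of `K` is at most that of `Z`. -/
theorem core {H : Subgroup G} {P : Set G} (hP : Cone H P) (K Z : Submodule ℂ (EE G I))
    (hK : Pool.Agent.W649.ZL.Inv K) (hKc : IsClosed (K : Set (EE G I))) (hZc : IsClosed (Z : Set (EE G I)))
    (hKZ : ∀ u ∈ sup I (H : Set G), (∀ ε : ℝ, 0 < ε → ∃ h ∈ sup I P, ∃ k ∈ K,
      ‖u + h - k‖ < ε) → u ∈ Z) : vd K ≤ vd Z := by
  classical
  have : CompleteSpace K := hKc.completeSpace_coe
  have : CompleteSpace Z := hZc.completeSpace_coe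
  set q : EE G I →L[ℂ] EE G I := Kᗮ.starProjection with hq
  have hq1 : ∀ x, x - q x ∈ K := by
    intro x
    have h1 := Submodule.sub_starProjection_mem_orthogonal (K := Kᗮ) x
    rw [Submodule.orthogonal_orthogonal] at h1
    exact h1
  have hq2 : ∀ x, q x ∈ Kᗮ := fun x => Submodule.starProjection_apply_mem _ _
  have hKo : Pool.Agent.W649.ZL.Inv Kᗮ := by
    intro k f hf
    rw [Submodule.mem_orthogonal] at hf ⊢
    intro g hg
    rw [← inner_conj_symm, inner_tr_left, inner_conj_symm]
    exact hf _ (hK _ _ hg)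
  have hqe : Eqv q := proj_tr hKo
  -- the past
  set M : Submodule ℂ (EE G I) := ((sup I P).map (q : EE G I →ₗ[ℂ] EE G I)).topologicalClosure
    with hM
  set N : Submodule ℂ (EE G I) :=
    ((sup I ((H : Set G) ∪ P)).map (q : EE G I →ₗ[ℂ] EE G I)).topologicalClosure with hN
  have hMc : IsClosed (M : Set (EE G I)) := Submodule.isClosed_topologicalClosure _
  have hNc : IsClosed (N : Set (EE G I)) := Submodule.isClosed_topologicalClosure _
  have : CompleteSpace M := hMc.completeSpace_coe
  have : CompleteSpace N := hNc.completeSpace_coe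
  have hqM : ∀ f ∈ sup I P, q f ∈ M := fun f hf =>
    Submodule.le_topologicalClosure _ ⟨f, hf, rfl⟩
  have hqN : ∀ f ∈ sup I ((H : Set G) ∪ P), q f ∈ N := fun f hf =>
    Submodule.le_topologicalClosure _ ⟨f, hf, rfl⟩
  have hMN : M ≤ N := by
    apply Submodule.topologicalClosure_mono
    apply Submodule.map_mono
    intro f hf x hx
    exact hf x (fun h => hx (Or.inr h))
  have hNK : N ≤ Kᗮ := by
    apply Submodule.topologicalClosure_minimal
    · rintro y ⟨f, _, rfl⟩
      exact hq2 f
    · exact Submodule.isClosed_orthogonal K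
  -- translations
  have hNM : ∀ k : G, k⁻¹ ∈ P → ∀ x ∈ N, tr k x ∈ M := by
    intro k hk x hx
    have h1 : Set.MapsTo (trL (I := I) k)
        (((sup I ((H : Set G) ∪ P)).map (q : EE G I →ₗ[ℂ] EE G I) : Submodule ℂ (EE G I)) :
          Set (EE G I)) (M : Set (EE G I)) := by
      rintro y ⟨f, hf, rfl⟩
      change tr k (q f) ∈ M
      rw [← hqe]
      exact hqM _ (hP.tr_sup hk f hf)
    have h2 := h1.closure_left (trL (I := I) k).continuous hMc
    have h3 : x ∈ closure (((sup I ((H : Set G) ∪ P)).map (q : EE G I →ₗ[ℂ] EE G I) :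
        Submodule ℂ (EE G I)) : Set (EE G I)) := by
      rw [← Submodule.topologicalClosure_coe]; exact hx
    exact h2 h3
  -- the operator `S`
  set r : EE G I →L[ℂ] EE G I := Mᗮ.starProjection with hr
  have hr1 : ∀ x, x - r x ∈ M := by
    intro x
    have h1 := Submodule.sub_starProjection_mem_orthogonal (K := Mᗮ) x
    rw [Submodule.orthogonal_orthogonal] at h1
    exact h1
  set S : EE G I →L[ℂ] EE G I := r.comp (q.comp (res (H : Set G))) with hS
  have hSa : ∀ f, S f = r (q (res (H : Set G) f)) := fun f => rfl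
  have hresH : ∀ h ∈ H, ∀ f : EE G I, res (H : Set G) (tr h f) = tr h (res (H : Set G) f) := by
    intro h hh f
    exact res_tr _ h (fun x => H.mul_mem_cancel_right hh) f
  have hMH : ∀ h ∈ H, ∀ x ∈ M, tr h x ∈ M := by
    intro k hk x hx
    have h1 : Set.MapsTo (trL (I := I) k)
        (((sup I P).map (q : EE G I →ₗ[ℂ] EE G I) : Submodule ℂ (EE G I)) :
          Set (EE G I)) (M : Set (EE G I)) := by
      rintro y ⟨f, hf, rfl⟩
      change tr k (q f) ∈ M
      rw [← hqe]
      refine hqM _ ?_
      intro x hx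
      rw [tr_apply]
      apply hf
      intro h
      apply hx
      have : x.1 = (x.1 * k) * k⁻¹ := by group
      rw [this]
      exact hP.mul_H h (H.inv_mem hk)
    have h2 := h1.closure_left (trL (I := I) k).continuous hMc
    have h3 : x ∈ closure (((sup I P).map (q : EE G I →ₗ[ℂ] EE G I) :
        Submodule ℂ (EE G I)) : Set (EE G I)) := by
      rw [← Submodule.topologicalClosure_coe]; exact hx
    exact h2 h3
  have hrH : ∀ h ∈ H, ∀ f : EE G I, r (tr h f) = tr h (r f) := by
    intro h hh f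
    apply Submodule.eq_starProjection_of_mem_of_inner_eq_zero
    · rw [Submodule.mem_orthogonal]
      intro g hg
      rw [← inner_conj_symm, inner_tr_left]
      have h1 : r f ∈ Mᗮ := Submodule.starProjection_apply_mem _ _
      rw [Submodule.mem_orthogonal] at h1
      rw [inner_conj_symm]
      exact h1 _ (hMH _ (H.inv_mem hh) _ hg)
    · intro w hw
      have e : tr h f - tr h (r f) = tr h (f - r f) := by
        ext x; rfl
      rw [e, inner_tr_left]
      rw [Submodule.mem_orthogonal] at hw
      have h1 : tr h (f - r f) ∈ M := hMH h hh _ (hr1 f)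
      have h2 := hw _ h1
      rw [inner_tr_left] at h2
      exact h2
  have hSH : ∀ h ∈ H, ∀ f : EE G I, S (tr h f) = tr h (S f) := by
    intro h hh f
    rw [hSa, hSa, hresH h hh, hqe, hrH h hh]
  set A : EE G I →L[ℂ] EE G I := ContinuousLinearMap.adjoint S with hA
  have hAA : ContinuousLinearMap.adjoint A = S := by
    rw [hA, ContinuousLinearMap.adjoint_adjoint]
  have hAH : ∀ h ∈ H, ∀ f : EE G I, A (tr h f) = tr h (A f) := by
    intro h hh f
    apply ext_inner_right ℂ
    intro v
    rw [hA, ContinuousLinearMap.adjoint_inner_left, inner_tr_left, ← hSH _ (H.inv_mem hh),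
      inner_tr_left, ContinuousLinearMap.adjoint_inner_left]
  -- the kernel of `S`
  set W : Submodule ℂ (EE G I) := LinearMap.ker (S : EE G I →ₗ[ℂ] EE G I) with hW
  have hWc : IsClosed (W : Set (EE G I)) := ContinuousLinearMap.isClosed_ker S
  have : CompleteSpace W := hWc.completeSpace_coe
  have hWres : ∀ w ∈ W, res (H : Set G) w ∈ W := by
    intro w hw
    change S (res (H : Set G) w) = 0
    rw [hSa, res_res]
    exact hw
  have hWZ : ∀ w ∈ W, w ∈ sup I (H : Set G) → w ∈ Z := by
    intro w hw hwH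
    refine hKZ w hwH fun ε hε => ?_
    have h1 : r (q w) = 0 := by
      have h2 : S w = 0 := hw
      rw [hSa, res_of_supp _ _ hwH] at h2
      exact h2
    have h2 : q w ∈ M := star_zero M _ h1
    have h3 : q w ∈ closure (((sup I P).map (q : EE G I →ₗ[ℂ] EE G I) :
        Submodule ℂ (EE G I)) : Set (EE G I)) := by
      rw [← Submodule.topologicalClosure_coe]; exact h2
    rw [Metric.mem_closure_iff] at h3
    obtain ⟨b, ⟨h, hh, rfl⟩, hb⟩ := h3 ε hε
    refine ⟨-h, Submodule.neg_mem _ hh, (w + -h) - q (w + -h), hq1 _, ?_⟩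
    rw [sub_sub_cancel, map_add, map_neg, ← sub_eq_add_neg, ← dist_eq_norm]
    exact hb
  -- the projections of the basis vectors
  have hdres : ∀ i : I, res (H : Set G) (dl ((1 : G), i)) = dl ((1 : G), i) := by
    intro i
    apply res_of_supp
    rintro ⟨x, j⟩ hx
    apply dl_apply_ne
    intro h
    apply hx
    have : x = 1 := congrArg Prod.fst h
    rw [this]
    exact H.one_mem
  have hw1 : ∀ i : I, res (H : Set G) (W.starProjection (dl ((1 : G), i)))
      = W.starProjection (dl ((1 : G), i)) := by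
    intro i
    symm
    apply Submodule.eq_starProjection_of_mem_of_inner_eq_zero
    · exact hWres _ (Submodule.starProjection_apply_mem _ _)
    · intro w hw
      have e : dl ((1 : G), i) - res (H : Set G) (W.starProjection (dl ((1 : G), i)))
          = res (H : Set G) (dl ((1 : G), i) - W.starProjection (dl ((1 : G), i))) := by
        rw [map_sub, hdres]
      rw [e, res_inner]
      exact Submodule.starProjection_inner_eq_zero _ _ (hWres w hw)
  have hwZ : ∀ i : I, W.starProjection (dl ((1 : G), i)) ∈ Z := by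
    intro i
    apply hWZ _ (Submodule.starProjection_apply_mem _ _)
    rw [← hw1]
    exact res_mem_sup _ _
  have hle : ∀ i : I, ‖W.starProjection (dl ((1 : G), i))‖ ^ 2
      ≤ ‖Z.starProjection (dl ((1 : G), i))‖ ^ 2 := by
    intro i
    set d : EE G I := dl ((1 : G), i)
    set x := W.starProjection d with hx
    have h1 : ‖x‖ ^ 2 = (⟪d, x⟫_ℂ).re := norm_sq_star W d
    have h2 : ⟪d, x⟫_ℂ = ⟪Z.starProjection d, x⟫_ℂ := by
      have h3 : ⟪d - Z.starProjection d, x⟫_ℂ = 0 :=
        Submodule.starProjection_inner_eq_zero d x (hwZ i)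
      rw [inner_sub_left, sub_eq_zero] at h3
      exact h3
    have h4 : ‖x‖ ^ 2 ≤ ‖Z.starProjection d‖ * ‖x‖ := by
      rw [h1, h2]
      exact (Complex.re_le_norm _).trans (norm_inner_le_norm _ _)
    have h5 : ‖x‖ ≤ ‖Z.starProjection d‖ := by
      rcases eq_or_lt_of_le (norm_nonneg x) with h0 | h0
      · rw [← h0]; exact norm_nonneg _
      · rw [sq] at h4
        exact le_of_mul_le_mul_right h4 h0
    gcongr
  -- the closure of the range of `S`
  set D : Submodule ℂ (EE G I) := (LinearMap.range (S : EE G I →ₗ[ℂ] EE G I)).topologicalClosure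
    with hD
  have hDc : IsClosed (D : Set (EE G I)) := Submodule.isClosed_topologicalClosure _
  have : CompleteSpace D := hDc.completeSpace_coe
  have hSD : ∀ f, S f ∈ D := fun f => Submodule.le_topologicalClosure _ ⟨f, rfl⟩
  have hDM : D ≤ Mᗮ := by
    apply Submodule.topologicalClosure_minimal
    · rintro y ⟨f, rfl⟩
      exact Submodule.starProjection_apply_mem _ _
    · exact Submodule.isClosed_orthogonal M
  have hDN : D ≤ N := by
    apply Submodule.topologicalClosure_minimal
    · rintro y ⟨f, rfl⟩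
      change r (q (res (H : Set G) f)) ∈ N
      have e : r (q (res (H : Set G) f)) = q (res (H : Set G) f)
          - (q (res (H : Set G) f) - r (q (res (H : Set G) f))) := by abel
      rw [e]
      apply Submodule.sub_mem
      · apply hqN
        intro x hx
        exact res_notMem _ _ _ (fun h => hx (Or.inl h))
      · exact hMN (hr1 _)
    · exact hNc
  have horth : ∀ t s : G, t⁻¹ * s ∈ P → ∀ x ∈ D, ∀ y ∈ D, ⟪tr t x, tr s y⟫_ℂ = 0 := by
    intro t s hts x hx y hy
    rw [orth_tr (k := t) (D := D)]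
    have h1 : tr (s⁻¹ * t) x ∈ M := by
      apply hNM _ _ _ (hDN hx)
      have : (s⁻¹ * t)⁻¹ = t⁻¹ * s := by group
      rw [this]; exact hts
    exact Submodule.inner_right_of_mem_orthogonal h1 (hDM hy)
  -- Bessel's inequality
  have hBes : ∀ (j : I) (F : Finset (G ⧸ H)),
      ∑ c ∈ F, ‖D.starProjection (dl (c.out, j))‖ ^ 2 ≤ ‖q (dl ((1 : G), j))‖ ^ 2 := by
    intro j F
    set d : EE G I := dl ((1 : G), j) with hd
    let vv : G ⧸ H → EE G I := fun c => tr c.out (D.starProjection (dl (c.out, j)))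
    have hv1 : ∀ c, ⟪vv c, d⟫_ℂ = ((‖D.starProjection (dl (c.out, j))‖ ^ 2 : ℝ) : ℂ) := by
      intro c
      simp only [vv]
      rw [inner_tr_left, hd, ← dl_eq_tr, ← inner_conj_symm]
      have h1 : ⟪dl (c.out, j) - D.starProjection (dl (c.out, j)),
          D.starProjection (dl (c.out, j))⟫_ℂ = 0 :=
        Submodule.starProjection_inner_eq_zero _ _ (Submodule.starProjection_apply_mem _ _)
      rw [inner_sub_left, sub_eq_zero] at h1
      rw [h1, inner_self_eq_norm_sq_to_K]
      simp
    have hv2 : ∀ c c', c ≠ c' → ⟪vv c, vv c'⟫_ℂ = 0 := by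
      intro c c' hcc
      rcases hP.tri (c.out⁻¹ * c'.out) with h1 | h1 | h1
      · exact horth _ _ h1 _ (Submodule.starProjection_apply_mem _ _) _
          (Submodule.starProjection_apply_mem _ _)
      · exfalso
        apply hcc
        rw [← QuotientGroup.eq] at h1
        rw [← QuotientGroup.out_eq' c, ← QuotientGroup.out_eq' c']
        exact h1
      · have h2 : (c.out⁻¹ * c'.out)⁻¹ = c'.out⁻¹ * c.out := by group
        rw [h2] at h1
        rw [← inner_conj_symm, horth _ _ h1 _ (Submodule.starProjection_apply_mem _ _) _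
          (Submodule.starProjection_apply_mem _ _), map_zero]
    have hv3 : ∀ c, vv c ∈ Kᗮ := fun c =>
      hKo _ _ (hNK (hDN (Submodule.starProjection_apply_mem _ _)))
    have hv4 : ∀ c, ⟪vv c, vv c⟫_ℂ = ((‖D.starProjection (dl (c.out, j))‖ ^ 2 : ℝ) : ℂ) := by
      intro c
      simp only [vv]
      rw [inner_tr, inner_self_eq_norm_sq_to_K]
      simp
    set w := ∑ c ∈ F, vv c with hw
    set s : ℝ := ∑ c ∈ F, ‖D.starProjection (dl (c.out, j))‖ ^ 2 with hs
    have hw1' : ⟪w, d⟫_ℂ = (s : ℂ) := by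
      rw [hw, sum_inner, hs, Complex.ofReal_sum]
      exact Finset.sum_congr rfl fun c _ => hv1 c
    have hw2 : ⟪w, w⟫_ℂ = (s : ℂ) := by
      rw [hw, sum_inner, hs, Complex.ofReal_sum]
      refine Finset.sum_congr rfl fun c hc => ?_
      rw [inner_sum, Finset.sum_eq_single c]
      · exact hv4 c
      · intro c' _ hne
        exact hv2 c c' (Ne.symm hne)
      · intro h; exact absurd hc h
    have hw3 : w ∈ Kᗮ := Submodule.sum_mem _ fun c _ => hv3 c
    have hw4 : ⟪w, d⟫_ℂ = ⟪w, q d⟫_ℂ := by
      have h1 : ⟪d - q d, w⟫_ℂ = 0 := Submodule.starProjection_inner_eq_zero d w hw3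
      have h2 : ⟪w, d - q d⟫_ℂ = 0 := by rw [← inner_conj_symm, h1, map_zero]
      rw [inner_sub_right, sub_eq_zero] at h2
      exact h2
    have hn : ‖w‖ ^ 2 = s := by
      have h1 := inner_self_eq_norm_sq_to_K (𝕜 := ℂ) w
      rw [hw2] at h1
      have h2 : ((‖w‖ ^ 2 : ℝ) : ℂ) = (s : ℂ) := by rw [h1]; simp
      exact_mod_cast h2
    have h5 : s ≤ ‖w‖ * ‖q d‖ := by
      have h1 : ‖⟪w, q d⟫_ℂ‖ ≤ ‖w‖ * ‖q d‖ := norm_inner_le_norm _ _
      rw [← hw4, hw1'] at h1
      exact (le_abs_self s).trans (by simpa using h1)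
    rw [← hn] at h5 ⊢
    have h6 : ‖w‖ ≤ ‖q d‖ := by
      rcases eq_or_lt_of_le (norm_nonneg w) with h0 | h0
      · rw [← h0]; exact norm_nonneg _
      · rw [sq] at h5
        exact le_of_mul_le_mul_left h5 h0
    gcongr
  -- the inequality for the regularisations
  have hC : ∀ (ε : ℝ) (R : EE G I →L[ℂ] EE G I), 0 < ε → IsReg A ε R →
      ∑ i : I, (⟪dl ((1 : G), i), A (R (S (dl ((1 : G), i))))⟫_ℂ).re
        ≤ ∑ j : I, ‖q (dl ((1 : G), j))‖ ^ 2 := by
    intro ε R hε hR
    have hRH : ∀ h ∈ H, ∀ f : EE G I, R (tr h f) = tr h (R f) := by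
      intro h hh f
      refine hR.comm (tr h) (tr_add h) (tr_smul h) ?_ f
      intro x
      rw [hAA, hAH h hh, hSH h hh]
    have hRS : ∀ x, R (S (A x)) = x - (ε : ℂ) • R x := by
      intro x
      have := hR.smul_apply_T x
      rw [hAA] at this
      exact this
    have hSAR : ∀ x, S (A (R x)) + (ε : ℂ) • R x = x := by
      intro x
      have := hR.1 x
      rw [hAA] at this
      exact this
    have hHS := HSH H S (R.comp S) hSH
      (by
        intro h hh f
        change R (S (tr h f)) = tr h (R (S f))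
        rw [hSH h hh, hRH h hh])
      (by
        intro g hg i
        rw [hSa]
        have : res (H : Set G) (dl (g, i)) = (0 : EE G I) := by
          ext ⟨x, j⟩
          by_cases hx : x ∈ (H : Set G)
          · rw [res_mem _ _ _ hx, dl_apply_ne]
            · rfl
            · intro h
              apply hg
              have : x = g := congrArg Prod.fst h
              rw [← this]; exact hx
          · rw [res_notMem _ _ _ hx]; rfl
        rw [this, map_zero, map_zero])
    have hre := (Complex.hasSum_re hHS)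
    have e1 : (∑ i : I, ⟪S (dl ((1 : G), i)), (R.comp S) (dl ((1 : G), i))⟫_ℂ).re
        = ∑ i : I, (⟪dl ((1 : G), i), A (R (S (dl ((1 : G), i))))⟫_ℂ).re := by
      rw [Complex.re_sum]
      refine Finset.sum_congr rfl fun i _ => ?_
      rw [hA, ContinuousLinearMap.adjoint_inner_right]
      rfl
    rw [e1] at hre
    refine hasSum_le_of_sum_le hre fun F => ?_
    have hbd : ∀ (c : G ⧸ H) (j : I), (⟪ContinuousLinearMap.adjoint (R.comp S) (dl (c.out, j)),
        ContinuousLinearMap.adjoint S (dl (c.out, j))⟫_ℂ).re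
        ≤ ‖D.starProjection (dl (c.out, j))‖ ^ 2 := by
      intro c j
      set d : EE G I := dl (c.out, j)
      set y := D.starProjection d with hy
      have hyD : y ∈ D := Submodule.starProjection_apply_mem _ _
      have hz : A (d - y) = 0 := by
        apply ext_inner_right ℂ
        intro v
        rw [hA, ContinuousLinearMap.adjoint_inner_left, inner_zero_left]
        exact Submodule.starProjection_inner_eq_zero d _ (hSD v)
      have hAd : A d = A y := by
        rw [map_sub, sub_eq_zero] at hz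
        exact hz
      have h1 : ⟪ContinuousLinearMap.adjoint (R.comp S) d, ContinuousLinearMap.adjoint S d⟫_ℂ
          = ⟪y, y - (ε : ℂ) • R y⟫_ℂ := by
        rw [ContinuousLinearMap.adjoint_inner_left, ContinuousLinearMap.comp_apply]
        change ⟪d, R (S (A d))⟫_ℂ = _
        rw [hAd, hRS]
        have h2 : y - (ε : ℂ) • R y ∈ D := by
          have h3 : y - (ε : ℂ) • R y = S (A (R y)) := by
            rw [sub_eq_iff_eq_add]; exact (hSAR y).symm
          rw [h3]
          exact hSD _
        have h4 : ⟪d - y, y - (ε : ℂ) • R y⟫_ℂ = 0 :=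
          Submodule.starProjection_inner_eq_zero d _ h2
        rw [inner_sub_left, sub_eq_zero] at h4
        exact h4
      rw [h1, inner_sub_right, inner_smul_right, Complex.sub_re, inner_self_eq_norm_sq_to_K,
        Complex.re_ofReal_mul]
      have h5 := hR.re_inner_self_nonneg hε y
      have h6 : (((‖y‖ : ℂ)) ^ 2).re = ‖y‖ ^ 2 := by
        norm_cast
      have h7 : (((‖y‖ : ℝ) : ℂ) ^ 2).re = ‖y‖ ^ 2 := h6
      have h8 : 0 ≤ ε * (⟪y, R y⟫_ℂ).re := mul_nonneg hε.le h5
      have h9 : ((RCLike.ofReal ‖y‖ : ℂ) ^ 2).re = ‖y‖ ^ 2 := h6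
      rw [h9]
      linarith
    calc ∑ c ∈ F, (∑ j : I, ⟪ContinuousLinearMap.adjoint (R.comp S) (dl (c.out, j)),
          ContinuousLinearMap.adjoint S (dl (c.out, j))⟫_ℂ).re
        ≤ ∑ c ∈ F, ∑ j : I, ‖D.starProjection (dl (c.out, j))‖ ^ 2 := by
          refine Finset.sum_le_sum fun c _ => ?_
          rw [Complex.re_sum]
          exact Finset.sum_le_sum fun j _ => hbd c j
      _ = ∑ j : I, ∑ c ∈ F, ‖D.starProjection (dl (c.out, j))‖ ^ 2 := Finset.sum_comm
      _ ≤ ∑ j : I, ‖q (dl ((1 : G), j))‖ ^ 2 := Finset.sum_le_sum fun j _ => hBes j F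
  -- the limit
  have hWo : Wᗮ = (LinearMap.range (A : EE G I →ₗ[ℂ] EE G I)).topologicalClosure := by
    rw [hW, hA]
    exact ContinuousLinearMap.orthogonal_ker S
  have hlim : ∑ i : I, ‖Wᗮ.starProjection (dl ((1 : G), i))‖ ^ 2
      ≤ ∑ j : I, ‖q (dl ((1 : G), j))‖ ^ 2 := by
    apply le_of_forall_pos_le_add
    intro δ hδ
    set ρ := δ / (Fintype.card I + 1) with hρ
    have hρ0 : 0 < ρ := by positivity
    have h1 : ∀ i : I, ∀ᶠ ε in nhdsWithin (0 : ℝ) (Set.Ioi 0), ∀ R, IsReg A ε R →
        ‖A (R (ContinuousLinearMap.adjoint A (dl ((1 : G), i))))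
          - Wᗮ.starProjection (dl ((1 : G), i))‖ ≤ ρ := by
      intro i
      obtain ⟨e0, he0, h⟩ := reg_tendsto A Wᗮ hWo (dl ((1 : G), i)) ρ hρ0
      filter_upwards [Ioo_mem_nhdsGT he0] with ε hε R hR
      exact h ε R hε.1 hε.2 hR
    have h3 : ∀ᶠ ε in nhdsWithin (0 : ℝ) (Set.Ioi 0), 0 < ε := self_mem_nhdsWithin
    obtain ⟨ε, ha, hc⟩ := ((Filter.eventually_all.2 h1).and h3).exists
    obtain ⟨R, hR⟩ := exists_reg A ε hc
    have h4 := hC ε R hc hR
    have h5 : ∀ i : I, ‖Wᗮ.starProjection (dl ((1 : G), i))‖ ^ 2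
        ≤ (⟪dl ((1 : G), i), A (R (S (dl ((1 : G), i))))⟫_ℂ).re + ρ := by
      intro i
      have h6 := close_aux Wᗮ i _ ρ (ha i R hR)
      rw [hAA] at h6
      have := (abs_le.1 h6).1
      linarith
    calc ∑ i : I, ‖Wᗮ.starProjection (dl ((1 : G), i))‖ ^ 2
        ≤ ∑ i : I, ((⟪dl ((1 : G), i), A (R (S (dl ((1 : G), i))))⟫_ℂ).re + ρ) :=
          Finset.sum_le_sum fun i _ => h5 i
      _ = ∑ i : I, (⟪dl ((1 : G), i), A (R (S (dl ((1 : G), i))))⟫_ℂ).re
          + Fintype.card I * ρ := by
          rw [Finset.sum_add_distrib]; simp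
      _ ≤ ∑ j : I, ‖q (dl ((1 : G), j))‖ ^ 2 + δ := by
          have h7 : (Fintype.card I : ℝ) * ρ ≤ δ := by
            rw [hρ, mul_div_assoc', div_le_iff₀ (by positivity)]
            nlinarith
          linarith
  -- conclusion
  have hpyth : ∀ (U : Submodule ℂ (EE G I)) [CompleteSpace U] (i : I),
      ‖Uᗮ.starProjection (dl ((1 : G), i))‖ ^ 2 = 1 - ‖U.starProjection (dl ((1 : G), i))‖ ^ 2 := by
    intro U _ i
    have h1 : ‖(dl ((1 : G), i) : EE G I)‖ ^ 2 = ‖U.starProjection (dl ((1 : G), i))‖ ^ 2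
        + ‖Uᗮ.starProjection (dl ((1 : G), i))‖ ^ 2 :=
      Submodule.norm_sq_eq_add_norm_sq_starProjection _ U
    rw [norm_dl] at h1
    linarith
  rw [Finset.sum_congr rfl fun i _ => hpyth W i, Finset.sum_congr rfl fun i _ => hpyth K i,
    Finset.sum_sub_distrib, Finset.sum_sub_distrib] at hlim
  rw [vd_eq K K (topcl_eq hKc), vd_eq Z Z (topcl_eq hZc)]
  have := Finset.sum_le_sum fun i (_ : i ∈ (Finset.univ : Finset I)) => hle i
  linarith

end

end Pool.Agent.Y74.OC
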