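import Pool.Agent.Y74.OC.HS

set_option autoImplicit false
set_option linter.unusedSectionVars false

open scoped InnerProductSpace InnerProduct ENNReal

/-! Restriction of functions to a subset, right translations as operators, cones. -/

namespace Pool.Agent.Y74.OC

open Pool.Agent.W649.ZL

universe u v w

section
variable {G : Type u} {I : Type v} [Group G]

open Classical in
theorem memlp_res (X : Set G) (f : EE G I) :
    Memℓp (fun x : G × I => if x.1 ∈ X then f x else 0) 2 := by
  rw [memlp_two_iff]
  refine Summable.of_nonneg_of_le (fun _ => by positivity) (fun x => ?_)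
    ((memlp_two_iff _).1 f.2)
  split_ifs
  · exact le_rfl
  · simp only [norm_zero, ne_eq, OfNat.ofNat_ne_zero, not_false_eq_true, zero_pow]
    positivity

open Classical in
/-- restriction -/
noncomputable def resFun (X : Set G) (f : EE G I) : EE G I :=
  ⟨fun x => if x.1 ∈ X then f x else 0, memlp_res X f⟩

theorem resFun_mem (X : Set G) (f : EE G I) (x : G × I) (hx : x.1 ∈ X) : resFun X f x = f x :=
  if_pos hx

theorem resFun_notMem (X : Set G) (f : EE G I) (x : G × I) (hx : x.1 ∉ X) : resFun X f x = 0 :=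
  if_neg hx

theorem norm_resFun_le (X : Set G) (f : EE G I) : ‖resFun X f‖ ≤ ‖f‖ := by
  have e : ‖resFun X f‖ ^ 2 ≤ ‖f‖ ^ 2 := by
    rw [norm_sq_tsum, norm_sq_tsum]
    refine Summable.tsum_le_tsum (fun x => ?_) ((memlp_two_iff _).1 (resFun X f).2)
      ((memlp_two_iff _).1 f.2)
    by_cases hx : x.1 ∈ X
    · rw [resFun_mem X f x hx]
    · rw [resFun_notMem X f x hx]
      simp only [norm_zero, ne_eq, OfNat.ofNat_ne_zero, not_false_eq_true, zero_pow]
      positivity
  exact (sq_le_sq₀ (norm_nonneg _) (norm_nonneg _)).1 e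

/-- restriction as an operator -/
noncomputable def res (X : Set G) : EE G I →L[ℂ] EE G I :=
  LinearMap.mkContinuous
    { toFun := resFun X
      map_add' := fun f g => by
        ext x
        by_cases hx : x.1 ∈ X
        · rw [resFun_mem X _ x hx]
          change f x + g x = resFun X f x + resFun X g x
          rw [resFun_mem X _ x hx, resFun_mem X _ x hx]
        · rw [resFun_notMem X _ x hx]
          change 0 = resFun X f x + resFun X g x
          rw [resFun_notMem X _ x hx, resFun_notMem X _ x hx, add_zero]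
      map_smul' := fun c f => by
        ext x
        by_cases hx : x.1 ∈ X
        · rw [resFun_mem X _ x hx]
          change c * f x = c * resFun X f x
          rw [resFun_mem X _ x hx]
        · rw [resFun_notMem X _ x hx]
          change 0 = c * resFun X f x
          rw [resFun_notMem X _ x hx, mul_zero] } 1
    (fun h => by rw [one_mul]; exact norm_resFun_le X h)

theorem res_mem (X : Set G) (f : EE G I) (x : G × I) (hx : x.1 ∈ X) : res X f x = f x :=
  resFun_mem X f x hx

theorem res_notMem (X : Set G) (f : EE G I) (x : G × I) (hx : x.1 ∉ X) : res X f x = 0 :=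
  resFun_notMem X f x hx

theorem res_inner (X : Set G) (f g : EE G I) : ⟪res X f, g⟫_ℂ = ⟪f, res X g⟫_ℂ := by
  rw [lp.inner_eq_tsum, lp.inner_eq_tsum]
  refine tsum_congr fun x => ?_
  by_cases hx : x.1 ∈ X
  · rw [res_mem X f x hx, res_mem X g x hx]
  · rw [res_notMem X f x hx, res_notMem X g x hx, inner_zero_left, inner_zero_right]

theorem res_res (X : Set G) (f : EE G I) : res X (res X f) = res X f := by
  ext x
  by_cases hx : x.1 ∈ X
  · rw [res_mem X _ x hx]
  · rw [res_notMem X _ x hx, res_notMem X _ x hx]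

theorem res_of_supp (X : Set G) (f : EE G I) (hf : ∀ x, x.1 ∉ X → f x = 0) : res X f = f := by
  ext x
  by_cases hx : x.1 ∈ X
  · rw [res_mem X _ x hx]
  · rw [res_notMem X _ x hx, hf x hx]

theorem res_tr (X : Set G) (k : G) (hk : ∀ x, x * k ∈ X ↔ x ∈ X) (f : EE G I) :
    res X (tr k f) = tr k (res X f) := by
  ext x
  rw [tr_apply]
  by_cases hx : x.1 ∈ X
  · rw [res_mem X _ x hx, res_mem X f (x.1 * k, x.2) ((hk _).2 hx), tr_apply]
  · rw [res_notMem X _ x hx, res_notMem X f (x.1 * k, x.2) (fun h => hx ((hk _).1 h))]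

/-- the functions supported on `X` -/
def sup (I : Type v) (X : Set G) : Submodule ℂ (EE G I) where
  carrier := {f | ∀ x : G × I, x.1 ∉ X → f x = 0}
  zero_mem' := fun x _ => rfl
  add_mem' := fun {f g} hf hg x hx => by
    change f x + g x = 0
    rw [hf x hx, hg x hx, add_zero]
  smul_mem' := fun c f hf x hx => by
    change c * f x = 0
    rw [hf x hx, mul_zero]

theorem mem_sup (X : Set G) (f : EE G I) : f ∈ sup I X ↔ ∀ x : G × I, x.1 ∉ X → f x = 0 := Iff.rfl

theorem res_mem_sup (X : Set G) (f : EE G I) : res X f ∈ sup I X := fun x hx => res_notMem X f x hx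

/-- right translation as an operator -/
noncomputable def trL (k : G) : EE G I →L[ℂ] EE G I :=
  LinearMap.mkContinuous { toFun := tr k, map_add' := tr_add k, map_smul' := tr_smul k } 1
    (fun h => by rw [one_mul]; exact (norm_tr k h).le)

theorem trL_apply (k : G) (f : EE G I) : trL k f = tr k f := rfl

/-- `P` is the set of positive elements for a total order on `G / H` which is invariant under
left multiplication. -/
structure Cone (H : Subgroup G) (P : Set G) : Prop where
  mul : ∀ a ∈ P, ∀ b ∈ P, a * b ∈ P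
  tri : ∀ g, g ∈ P ∨ g ∈ H ∨ g⁻¹ ∈ P
  notH : ∀ g ∈ P, g ∉ H

variable {H : Subgroup G} {P : Set G}

theorem Cone.not_inv (hP : Cone H P) {g : G} (hg : g ∈ P) : g⁻¹ ∉ P := by
  intro h
  have := hP.mul _ hg _ h
  rw [mul_inv_cancel] at this
  exact hP.notH _ this H.one_mem

theorem Cone.mul_H (hP : Cone H P) {a h : G} (ha : a ∈ P) (hh : h ∈ H) : a * h ∈ P := by
  rcases hP.tri (a * h) with h1 | h1 | h1
  · exact h1
  · exact absurd ((H.mul_mem_cancel_right hh).1 h1) (hP.notH _ ha)
  · have h2 := hP.mul _ h1 _ ha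
    have h3 : (a * h)⁻¹ * a = h⁻¹ := by group
    rw [h3] at h2
    exact absurd (H.inv_mem hh) (hP.notH _ h2)

theorem Cone.H_mul (hP : Cone H P) {a h : G} (ha : a ∈ P) (hh : h ∈ H) : h * a ∈ P := by
  rcases hP.tri (h * a) with h1 | h1 | h1
  · exact h1
  · exact absurd ((H.mul_mem_cancel_left hh).1 h1) (hP.notH _ ha)
  · have h2 := hP.mul _ ha _ h1
    have h3 : a * (h * a)⁻¹ = h⁻¹ := by group
    rw [h3] at h2
    exact absurd (H.inv_mem hh) (hP.notH _ h2)

/-- if `k⁻¹` is positive, translation by `k` moves functions supported on `H ∪ P` to functions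
supported on `P` -/
theorem Cone.tr_sup (hP : Cone H P) {k : G} (hk : k⁻¹ ∈ P) (f : EE G I)
    (hf : f ∈ sup I ((H : Set G) ∪ P)) : tr k f ∈ sup I P := by
  intro x hx
  rw [tr_apply]
  apply hf
  rintro (h | h)
  · apply hx
    have : x.1 = (x.1 * k) * k⁻¹ := by group
    rw [this]
    exact hP.H_mul hk h
  · apply hx
    have : x.1 = (x.1 * k) * k⁻¹ := by group
    rw [this]
    exact hP.mul _ h _ hk

end

end Pool.Agent.Y74.OC
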